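import Pool.Agent.V11247.EqG.Stress
import Pool.Agent.V11247.EqT.TypeClass

/-!
# From edge-connectivity to rigid linear data
-/

set_option autoImplicit false
set_option linter.unusedSectionVars false

namespace Pool.Agent.V11247.EqG

open Finset Module

/-- Vectors of the same norm, one of which is the average of all. -/
theorem conv1 {V J : Type} [Fintype V] [Fintype J] (r : V) (a : V → J → ℤ)
    (hn : ∀ v, ∑ j, (a v j) ^ 2 = ∑ j, (a r j) ^ 2)
    (hs : ∀ j, ∑ v, (a v j - a r j) = 0) : ∀ v, a v = a r := by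
  have h1 : ∑ v, ∑ j, (a v j - a r j) ^ 2 = 0 := by
    have h2 : ∀ v, ∑ j, (a v j - a r j) ^ 2 = ∑ j, (-2 * a r j) * (a v j - a r j) := by
      intro v
      have h3 : ∑ j, (a v j - a r j) ^ 2 = ∑ j, (a v j) ^ 2 - ∑ j, (a r j) ^ 2 +
          ∑ j, (-2 * a r j) * (a v j - a r j) := by
        rw [← Finset.sum_sub_distrib, ← Finset.sum_add_distrib]
        exact Finset.sum_congr rfl fun j _ => by ring
      rw [h3, hn v]
      ring
    simp only [h2]
    rw [Finset.sum_comm]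
    refine Finset.sum_eq_zero fun j _ => ?_
    rw [← Finset.mul_sum, hs j, mul_zero]
  intro v
  have h6 := (Finset.sum_eq_zero_iff_of_nonneg fun v _ =>
    (Finset.sum_nonneg fun j _ => sq_nonneg (a v j - a r j))).1 h1 v (mem_univ v)
  funext j
  have h8 := (Finset.sum_eq_zero_iff_of_nonneg fun j _ => sq_nonneg (a v j - a r j)).1 h6 j
    (mem_univ j)
  have h9 : a v j - a r j = 0 := by simpa using h8
  linarith

theorem exists_rig {V E : Type} [Fintype V] [DecidableEq V] [Nonempty V] [Fintype E]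
    (s t : E → V) {ℓ : ℕ} (hℓ : 0 < ℓ) {c : V → ℕ} (hst : ∀ e, s e ≠ t e)
    (hdeg : ∀ v, (univ.filter fun e => s e = v).card + (univ.filter fun e => t e = v).card =
      2 * (ℓ + c v))
    (hcut : ∀ S : Finset V, S.Nonempty → S ≠ univ →
      2 * ℓ ≤ (univ.filter fun e => ¬ (s e ∈ S ↔ t e ∈ S)).card) :
    ∃ L : E → (Fin (ℓ + ℓ) → ℤ), EqT.Rig ((univ : Finset E).toList.map fun e => (s e, t e, L e))
      (fun _ : Fin 1 => univ.map (Fin.natAddEmb ℓ)) := by
  classical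
  obtain ⟨r⟩ : Nonempty V := inferInstance
  obtain ⟨X, hX⟩ := exists_common (R := V) (ι := Row ℓ c) (fun r i e => row s t ℓ c r i e) (by
    intro r
    obtain ⟨f, hf⟩ := exists_partition s t hℓ hst hdeg hcut r
    exact ⟨fun i e => if f e = i then 1 else 0, hf⟩)
  have hX' : Gen s t X := hX
  obtain ⟨β, hβ⟩ := exists_avg hst hdeg hX' r
  obtain ⟨⟨M, hM⟩, hMi⟩ := IsLocalization.exist_integer_multiples_of_finite (nonZeroDivisors ℤ)
    (S := ℚ) (Sum.elim (fun p : Fin ℓ × E => X (Sum.inl p.1) p.2) (fun p : Fin ℓ × E => β p.1 p.2))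
  have hM0 : (M : ℚ) ≠ 0 := by
    have := nonZeroDivisors.ne_zero hM
    exact_mod_cast this
  have hA : ∀ p : Fin ℓ × E, ∃ z : ℤ, (z : ℚ) = M * X (Sum.inl p.1) p.2 := by
    intro p
    obtain ⟨z, hz⟩ := hMi (Sum.inl p)
    refine ⟨z, ?_⟩
    simpa using hz
  have hB : ∀ p : Fin ℓ × E, ∃ z : ℤ, (z : ℚ) = M * β p.1 p.2 := by
    intro p
    obtain ⟨z, hz⟩ := hMi (Sum.inr p)
    refine ⟨z, ?_⟩
    simpa using hz
  choose A hA using hA
  choose B hB using hB
  refine ⟨fun e => Fin.append (fun i => A (i, e)) (fun i => B (i, e)), ?_⟩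
  intro d y heq hnorm
  have hkey : ∀ e (j : Fin d), ∑ i, X (Sum.inl i) e *
      ((y (s e) j (Fin.castAdd ℓ i) : ℚ) - (y (t e) j (Fin.castAdd ℓ i) : ℚ)) +
      ∑ i, β i e * ((y (s e) j (Fin.natAdd ℓ i) : ℚ) - (y (t e) j (Fin.natAdd ℓ i) : ℚ)) = 0 := by
    intro e j
    have h1 := heq (s e, t e, Fin.append (fun i => A (i, e)) (fun i => B (i, e)))
      (List.mem_map.2 ⟨e, by simp, rfl⟩) j
    simp only [Fin.sum_univ_add, Fin.append_left, Fin.append_right] at h1
    have h2 : (∑ i, (A (i, e) : ℚ) * (y (s e) j (Fin.castAdd ℓ i) : ℚ) +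
        ∑ i, (B (i, e) : ℚ) * (y (s e) j (Fin.natAdd ℓ i) : ℚ)) =
        (∑ i, (A (i, e) : ℚ) * (y (t e) j (Fin.castAdd ℓ i) : ℚ) +
        ∑ i, (B (i, e) : ℚ) * (y (t e) j (Fin.natAdd ℓ i) : ℚ)) := by
      exact_mod_cast h1
    have h3 : (M : ℚ) * (∑ i, X (Sum.inl i) e *
      ((y (s e) j (Fin.castAdd ℓ i) : ℚ) - (y (t e) j (Fin.castAdd ℓ i) : ℚ)) +
      ∑ i, β i e * ((y (s e) j (Fin.natAdd ℓ i) : ℚ) - (y (t e) j (Fin.natAdd ℓ i) : ℚ))) = 0 := by
      rw [mul_add, Finset.mul_sum, Finset.mul_sum]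
      have h4 : ∀ i, (M : ℚ) * (X (Sum.inl i) e *
          ((y (s e) j (Fin.castAdd ℓ i) : ℚ) - (y (t e) j (Fin.castAdd ℓ i) : ℚ))) =
          (A (i, e) : ℚ) * (y (s e) j (Fin.castAdd ℓ i) : ℚ) -
          (A (i, e) : ℚ) * (y (t e) j (Fin.castAdd ℓ i) : ℚ) := by
        intro i
        rw [hA (i, e)]
        ring
      have h5 : ∀ i, (M : ℚ) * (β i e *
          ((y (s e) j (Fin.natAdd ℓ i) : ℚ) - (y (t e) j (Fin.natAdd ℓ i) : ℚ))) =
          (B (i, e) : ℚ) * (y (s e) j (Fin.natAdd ℓ i) : ℚ) -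
          (B (i, e) : ℚ) * (y (t e) j (Fin.natAdd ℓ i) : ℚ) := by
        intro i
        rw [hB (i, e)]
        ring
      simp only [h4, h5]
      rw [Finset.sum_sub_distrib, Finset.sum_sub_distrib]
      linarith
    exact (mul_eq_zero.1 h3).resolve_left hM0
  have havg : ∀ (j : Fin d) (i : Fin ℓ), ∑ v, (y v j (Fin.natAdd ℓ i) - y r j (Fin.natAdd ℓ i)) = 0 := by
    intro j i
    have h1 := hβ (fun v i => (y v j (Fin.castAdd ℓ i) : ℚ)) (fun v i => (y v j (Fin.natAdd ℓ i) : ℚ))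
      (fun e => hkey e j) i
    exact_mod_cast h1
  have hb : ∀ v (j : Fin d) (i : Fin ℓ), y v j (Fin.natAdd ℓ i) = y r j (Fin.natAdd ℓ i) := by
    have h1 := conv1 r (fun v (p : Fin d × Fin ℓ) => y v p.1 (Fin.natAdd ℓ p.2)) (by
      intro v
      have h2 := hnorm 0 v r
      simp only [Finset.sum_map, Fin.natAddEmb_apply] at h2
      rw [Fintype.sum_prod_type, Fintype.sum_prod_type]
      exact h2) (fun p => havg p.1 p.2)
    intro v j i
    exact congrFun (h1 v) (j, i)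
  have ha : ∀ v (j : Fin d) (i : Fin ℓ), y v j (Fin.castAdd ℓ i) = y r j (Fin.castAdd ℓ i) := by
    intro v j i
    have h1 := alpha_rigid hst hdeg hX' r (fun v i => (y v j (Fin.castAdd ℓ i) : ℚ)) (by
      intro e
      have h2 := hkey e j
      have h3 : ∑ i, β i e * ((y (s e) j (Fin.natAdd ℓ i) : ℚ) - (y (t e) j (Fin.natAdd ℓ i) : ℚ)) = 0 := by
        refine Finset.sum_eq_zero fun i _ => ?_
        rw [hb (s e) j i, hb (t e) j i, sub_self, mul_zero]
      rw [h3, add_zero] at h2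
      exact h2) v i
    exact_mod_cast h1
  have hr : ∀ v, y v = y r := by
    intro v
    funext j k
    refine Fin.addCases (fun i => ?_) (fun i => ?_) k
    · exact ha v j i
    · exact hb v j i
  intro v w
  rw [hr v, hr w]

end Pool.Agent.V11247.EqG
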