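import Mathlib

/-!
# Fractional packings of cuts
-/

set_option autoImplicit false

namespace Pool.Agent.V11247.EqG

/-- A cut of a graph on `V`: the pair `(S, Sᶜ)`, where `S` is neither empty nor everything. -/
abbrev Cut (V : Type) [Fintype V] [DecidableEq V] : Type :=
  {S : Finset V // S.Nonempty ∧ S ≠ Finset.univ}

/-- A fractional packing of cuts of `G`: weights in `[0, 1]` such that, for each edge `uv`, the cuts
that contain `uv` have total weight at most one. -/
def IsPacking {V : Type} [Fintype V] [DecidableEq V] (G : SimpleGraph V) (g : Cut V → ℝ) : Prop :=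
  (∀ C, 0 ≤ g C ∧ g C ≤ 1) ∧
    ∀ u v, G.Adj u v → ∑ C : Cut V, (if (u ∈ C.1 ↔ v ∈ C.1) then 0 else g C) ≤ 1

/-- `fc(G)`: the maximal total weight of a fractional packing of cuts. -/
noncomputable def fc {V : Type} [Fintype V] [DecidableEq V] (G : SimpleGraph V) : ℝ :=
  sSup {x : ℝ | ∃ g : Cut V → ℝ, IsPacking G g ∧ ∑ C, g C = x}

end Pool.Agent.V11247.EqG
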