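import Pool.Agent.V11247.EqG.Defs
import Pool.Agent.V11247.EqG.Cert
import Pool.Agent.V11247.EqT.Rate
import Pool.Agent.H249R2.PM.Farkas

/-!
# Duality and the rate of a connected graph
-/

set_option autoImplicit false
set_option linter.unusedSectionVars false

namespace Pool.Agent.V11247.EqG

open Finset Filter Topology

variable {V : Type} [Fintype V] [DecidableEq V] {G : SimpleGraph V}

theorem zero_packing (G : SimpleGraph V) : IsPacking G (0 : Cut V → ℝ) :=
  ⟨fun C => ⟨le_refl _, zero_le_one⟩, fun u v _ => by simp⟩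

theorem fc_bdd (G : SimpleGraph V) :
    BddAbove {x : ℝ | ∃ g : Cut V → ℝ, IsPacking G g ∧ ∑ C, g C = x} := by
  refine ⟨∑ _C : Cut V, 1, ?_⟩
  rintro x ⟨g, hg, rfl⟩
  exact Finset.sum_le_sum fun C _ => (hg.1 C).2

theorem le_fc {g : Cut V → ℝ} (hg : IsPacking G g) : ∑ C, g C ≤ fc G :=
  le_csSup (fc_bdd G) ⟨g, hg, rfl⟩

/-- The maximum is attained. -/
theorem fc_isGreatest (G : SimpleGraph V) :
    IsGreatest {x : ℝ | ∃ g : Cut V → ℝ, IsPacking G g ∧ ∑ C, g C = x} (fc G) := by
  have h1 : {x : ℝ | ∃ g : Cut V → ℝ, IsPacking G g ∧ ∑ C, g C = x} =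
      (fun g : Cut V → ℝ => ∑ C, g C) '' {g | IsPacking G g} := by
    ext x
    simp
  have hcont : Continuous fun g : Cut V → ℝ => ∑ C, g C :=
    continuous_finsetSum _ fun C _ => continuous_apply C
  have hclosed : IsClosed {g : Cut V → ℝ | IsPacking G g} := by
    have h2 : {g : Cut V → ℝ | IsPacking G g} =
        (⋂ C, {g : Cut V → ℝ | 0 ≤ g C ∧ g C ≤ 1}) ∩
        ⋂ u, ⋂ v, {g : Cut V → ℝ | G.Adj u v →
          ∑ C : Cut V, (if (u ∈ C.1 ↔ v ∈ C.1) then 0 else g C) ≤ 1} := by
      ext g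
      simp [IsPacking]
    rw [h2]
    refine IsClosed.inter (isClosed_iInter fun C => ?_) (isClosed_iInter fun u => isClosed_iInter fun v => ?_)
    · exact (isClosed_le continuous_const (continuous_apply C)).inter
        (isClosed_le (continuous_apply C) continuous_const)
    · by_cases huv : G.Adj u v
      · simp only [huv, forall_const]
        refine isClosed_le (continuous_finsetSum _ fun C _ => ?_) continuous_const
        by_cases hc : (u ∈ C.1 ↔ v ∈ C.1)
        · simp only [hc, if_true]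
          exact continuous_const
        · simp only [hc, if_false]
          exact continuous_apply C
      · simp [huv]
  have hcomp : IsCompact {g : Cut V → ℝ | IsPacking G g} := by
    refine IsCompact.of_isClosed_subset (isCompact_Icc (a := (0 : Cut V → ℝ)) (b := 1)) hclosed ?_
    intro g hg
    exact ⟨fun C => (hg.1 C).1, fun C => (hg.1 C).2⟩
  unfold fc
  rw [h1]
  exact (hcomp.image hcont).isGreatest_sSup ((Set.image_nonempty).2 ⟨0, zero_packing G⟩)

theorem exists_cross (hG : G.Connected) (C : Cut V) : ∃ u v, G.Adj u v ∧ ¬ (u ∈ C.1 ↔ v ∈ C.1) := by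
  obtain ⟨S, ⟨a, ha⟩, hS⟩ := C
  obtain ⟨b, hb⟩ : ∃ b, b ∉ S := by
    by_contra hcon
    push Not at hcon
    exact hS (Finset.eq_univ_iff_forall.2 hcon)
  obtain ⟨p⟩ := hG.preconnected a b
  obtain ⟨d, _, h1, h2⟩ := p.exists_boundary_dart (S : Set V) (by exact_mod_cast ha)
    (by exact_mod_cast hb)
  refine ⟨d.fst, d.snd, d.adj, ?_⟩
  simp only
  have h1' : d.fst ∈ S := by exact_mod_cast h1
  have h2' : d.snd ∉ S := by exact_mod_cast h2
  tauto

/-- **Duality.** -/
theorem exists_dual (hG : G.Connected) : ∃ y : V → V → ℝ, (∀ u v, 0 ≤ y u v) ∧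
    (∀ u v, ¬ G.Adj u v → y u v = 0) ∧ (∑ u, ∑ v, y u v ≤ fc G) ∧
    ∀ C : Cut V, 1 ≤ ∑ u, ∑ v, if (u ∈ C.1 ↔ v ∈ C.1) then 0 else y u v := by
  classical
  let pr : Cut V → ((Cut V → ℝ) →ₗ[ℝ] ℝ) := fun C => LinearMap.proj C
  let L : (Cut V ⊕ (V × V)) → ((Cut V → ℝ) →ₗ[ℝ] ℝ) := Sum.elim (fun C => - pr C)
    (fun p => if G.Adj p.1 p.2 then ∑ C, (if (p.1 ∈ C.1 ↔ p.2 ∈ C.1) then 0 else pr C) else 0)
  let b : (Cut V ⊕ (V × V)) → ℝ := Sum.elim (fun _ => 0) (fun _ => 1)
  have hL1 : ∀ C x, L (Sum.inl C) x = - x C := fun C x => by simp [L, pr]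
  have hL2 : ∀ (p : V × V) x, L (Sum.inr p) x = if G.Adj p.1 p.2 then
      ∑ C : Cut V, (if (p.1 ∈ C.1 ↔ p.2 ∈ C.1) then 0 else x C) else 0 := by
    intro p x
    simp only [L, Sum.elim_inr]
    by_cases h : G.Adj p.1 p.2
    · rw [if_pos h, if_pos h, LinearMap.sum_apply]
      refine Finset.sum_congr rfl fun C _ => ?_
      split_ifs
      · rfl
      · rfl
    · rw [if_neg h, if_neg h]; rfl
  obtain ⟨w0, w, hw0, hw, hf⟩ := Pool.Agent.H249R2.PM.farkas_fin L b (∑ C, pr C) (fc G) 0
    (by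
      rintro (C | p)
      · rw [hL1]; simp [b]
      · rw [hL2]
        simp only [b, Sum.elim_inr]
        split_ifs
        · simp
        · norm_num)
    (by
      intro x hx
      have h1 : (∑ C, pr C) x = ∑ C, x C := by
        rw [LinearMap.sum_apply]; rfl
      rw [h1]
      have hx0 : ∀ C, 0 ≤ x C := by
        intro C
        have := hx (Sum.inl C)
        rw [hL1] at this
        simp only [b, Sum.elim_inl] at this
        linarith
      have hedge : ∀ u v, G.Adj u v →
          ∑ C : Cut V, (if (u ∈ C.1 ↔ v ∈ C.1) then 0 else x C) ≤ 1 := by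
        intro u v huv
        have := hx (Sum.inr (u, v))
        rw [hL2, if_pos huv] at this
        exact this
      refine le_fc ⟨fun C => ⟨hx0 C, ?_⟩, hedge⟩
      obtain ⟨u, v, huv, hc⟩ := exists_cross hG C
      refine le_trans ?_ (hedge u v huv)
      have h2 : x C = if (u ∈ C.1 ↔ v ∈ C.1) then 0 else x C := by rw [if_neg hc]
      rw [h2]
      refine Finset.single_le_sum (f := fun C : Cut V => if (u ∈ C.1 ↔ v ∈ C.1) then 0 else x C)
        (fun C _ => ?_) (mem_univ C)
      split_ifs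
      · exact le_refl _
      · exact hx0 C)
  -- evaluate at zero and at unit vectors
  have hz := hf 0
  have hu : ∀ C : Cut V, fc G - 1 = w0 + ∑ i, w i * (b i - L i (Pi.single C 1)) := by
    intro C
    have h1 := hf (Pi.single C 1)
    have h2 : (∑ C, pr C) (Pi.single C 1) = (1 : ℝ) := by
      rw [LinearMap.sum_apply]
      simp [pr, Pi.single_apply]
    rw [h2] at h1
    exact h1
  rw [map_zero, sub_zero] at hz
  simp only [map_zero, sub_zero] at hz
  rw [Fintype.sum_sum_type] at hz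
  simp only [b, Sum.elim_inl, Sum.elim_inr, mul_zero, Finset.sum_const_zero, zero_add, mul_one] at hz
  refine ⟨fun u v => if G.Adj u v then w (Sum.inr (u, v)) else 0, ?_, ?_, ?_, ?_⟩
  · intro u v
    dsimp only
    split_ifs
    · exact hw _
    · exact le_refl _
  · intro u v huv
    dsimp only
    rw [if_neg huv]
  · rw [hz, Fintype.sum_prod_type]
    have h1 : ∑ u, ∑ v, (if G.Adj u v then w (Sum.inr (u, v)) else 0) ≤
        ∑ u, ∑ v, w (Sum.inr (u, v)) := by
      refine Finset.sum_le_sum fun u _ => Finset.sum_le_sum fun v _ => ?_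
      split_ifs
      · exact le_refl _
      · exact hw _
    linarith
  · intro C
    have h1 := hu C
    rw [Fintype.sum_sum_type] at h1
    simp only [hL1, hL2, b, Sum.elim_inl, Sum.elim_inr] at h1
    have h2 : ∀ p : V × V, ∑ C' : Cut V, (if (p.1 ∈ C'.1 ↔ p.2 ∈ C'.1) then 0 else
        (Pi.single C 1 : Cut V → ℝ) C') = if (p.1 ∈ C.1 ↔ p.2 ∈ C.1) then 0 else 1 := by
      intro p
      rw [Finset.sum_eq_single C]
      · simp
      · intro C' _ hC'
        rw [Pi.single_eq_of_ne hC']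
        simp
      · intro h; exact absurd (mem_univ C) h
    simp only [h2] at h1
    have h3 : ∑ C' : Cut V, w (Sum.inl C') * (0 - -(Pi.single C 1 : Cut V → ℝ) C') = w (Sum.inl C) := by
      rw [Finset.sum_eq_single C]
      · simp
      · intro C' _ hC'
        rw [Pi.single_eq_of_ne hC']
        simp
      · intro h; exact absurd (mem_univ C) h
    rw [h3, Fintype.sum_prod_type] at h1
    rw [Fintype.sum_prod_type] at hz
    have h4 : ∑ u, ∑ v, w (Sum.inr (u, v)) * (1 - if G.Adj (u, v).1 (u, v).2 then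
        (if ((u, v).1 ∈ C.1 ↔ (u, v).2 ∈ C.1) then (0 : ℝ) else 1) else 0) =
        ∑ u, ∑ v, w (Sum.inr (u, v)) - ∑ u, ∑ v, (if (u ∈ C.1 ↔ v ∈ C.1) then 0 else
          if G.Adj u v then w (Sum.inr (u, v)) else 0) := by
      rw [← Finset.sum_sub_distrib]
      refine Finset.sum_congr rfl fun u _ => ?_
      rw [← Finset.sum_sub_distrib]
      refine Finset.sum_congr rfl fun v _ => ?_
      by_cases h5 : G.Adj u v <;> by_cases h6 : (u ∈ C.1 ↔ v ∈ C.1) <;> simp [h5, h6]
    rw [h4] at h1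
    have h5 := hw (Sum.inl C)
    linarith

end Pool.Agent.V11247.EqG
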