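import Pool.Agent.V11247.EqG.Dual

/-!
# The rate of a connected graph is the maximum fractional cut packing
-/

set_option autoImplicit false
set_option linter.unusedSectionVars false

namespace Pool.Agent.V11247.EqG

open Finset Filter Topology Pool.Agent.V11247.EqT

variable {V : Type} [Fintype V] [DecidableEq V] {G : SimpleGraph V}

theorem card_sigma_filter (m : V × V → ℕ) (p : V × V → Prop) [DecidablePred p] :
    (univ.filter fun e : (Σ q : V × V, Fin (m q)) => p e.1).card =
      ∑ u, ∑ v, if p (u, v) then m (u, v) else 0 := by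
  rw [Finset.card_filter, Fintype.sum_sigma, Fintype.sum_prod_type]
  refine Finset.sum_congr rfl fun u _ => Finset.sum_congr rfl fun v _ => ?_
  by_cases h : p (u, v)
  · simp [h]
  · simp [h]

/-- **Upper bound.** -/
theorem upper (hG : G.Connected) (hV : 2 ≤ Fintype.card V) (ε : ℝ) (hε : 0 < ε) :
    ∀ᶠ n : ℕ in atTop, (eqCost G (Fin n → Bool) : ℝ) ≤ (fc G + ε) * n := by
  classical
  obtain ⟨y, hy0, hyadj, hysum, hycut⟩ := exists_dual hG
  -- choice of the multiplicities
  obtain ⟨ℓ, hℓ⟩ := exists_nat_gt (max 0 (((Fintype.card V : ℝ) * Fintype.card V) / (ε / 2)))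
  have hℓ0 : (0 : ℝ) < ℓ := lt_of_le_of_lt (le_max_left _ _) hℓ
  have hℓ1 : ((Fintype.card V : ℝ) * Fintype.card V) / (ε / 2) < ℓ :=
    lt_of_le_of_lt (le_max_right _ _) hℓ
  have hℓpos : 0 < ℓ := by exact_mod_cast hℓ0
  let N : V × V → ℕ := fun p => ⌈y p.1 p.2 * ℓ⌉₊
  have hN1 : ∀ u v, y u v * ℓ ≤ N (u, v) := fun u v => Nat.le_ceil _
  have hN2 : ∀ u v, (N (u, v) : ℝ) ≤ y u v * ℓ + 1 := fun u v =>
    (Nat.ceil_lt_add_one (mul_nonneg (hy0 u v) hℓ0.le)).le
  have hN0 : ∀ p : V × V, 0 < N p → G.Adj p.1 p.2 := by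
    intro p hp
    by_contra hcon
    have : N p = 0 := by
      simp only [N, hyadj p.1 p.2 hcon, zero_mul, Nat.ceil_zero]
    omega
  have hNcut : ∀ S : Finset V, S.Nonempty → S ≠ univ →
      ℓ ≤ ∑ u, ∑ v, if ¬ (u ∈ S ↔ v ∈ S) then N (u, v) else 0 := by
    intro S h1 h2
    have h3 := hycut ⟨S, h1, h2⟩
    have h4 : (ℓ : ℝ) ≤ ∑ u, ∑ v, if ¬ (u ∈ S ↔ v ∈ S) then (N (u, v) : ℝ) else 0 := by
      calc (ℓ : ℝ) = 1 * ℓ := (one_mul _).symm
        _ ≤ (∑ u, ∑ v, if (u ∈ S ↔ v ∈ S) then 0 else y u v) * ℓ :=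
          mul_le_mul_of_nonneg_right h3 hℓ0.le
        _ ≤ _ := by
          rw [Finset.sum_mul]
          refine Finset.sum_le_sum fun u _ => ?_
          rw [Finset.sum_mul]
          refine Finset.sum_le_sum fun v _ => ?_
          by_cases h5 : (u ∈ S ↔ v ∈ S)
          · rw [if_pos h5, if_neg (not_not.2 h5), zero_mul]
          · rw [if_neg h5, if_pos h5]
            exact hN1 u v
    exact_mod_cast h4
  let E := Σ q : V × V, Fin (2 * N q)
  let s : E → V := fun e => e.1.1
  let t : E → V := fun e => e.1.2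
  have hadj : ∀ e : E, G.Adj (s e) (t e) := by
    intro e
    have := e.2.2
    exact hN0 e.1 (by omega)
  have htwo : ∀ (p : V × V → Prop) [DecidablePred p],
      (univ.filter fun e : E => p e.1).card = 2 * ∑ u, ∑ v, if p (u, v) then N (u, v) else 0 := by
    intro p _
    rw [card_sigma_filter, Finset.mul_sum]
    refine Finset.sum_congr rfl fun u _ => ?_
    rw [Finset.mul_sum]
    refine Finset.sum_congr rfl fun v _ => ?_
    split_ifs
    · rfl
    · rfl
  have hcut : ∀ S : Finset V, S.Nonempty → S ≠ univ →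
      2 * ℓ ≤ (univ.filter fun e : E => ¬ (s e ∈ S ↔ t e ∈ S)).card := by
    intro S h1 h2
    have h3 := htwo fun p => ¬ (p.1 ∈ S ↔ p.2 ∈ S)
    have h4 := hNcut S h1 h2
    simp only at h3
    rw [h3]
    omega
  let dN : V → ℕ := fun w => (∑ u, ∑ v, if u = w then N (u, v) else 0) +
    ∑ u, ∑ v, if v = w then N (u, v) else 0
  have hdN : ∀ w, ℓ ≤ dN w := by
    intro w
    have h1 := hNcut {w} (Finset.singleton_nonempty w) (by
      intro h
      have := congrArg Finset.card h
      rw [Finset.card_singleton, Finset.card_univ] at this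
      omega)
    refine h1.trans ?_
    simp only [dN]
    rw [← Finset.sum_add_distrib]
    refine Finset.sum_le_sum fun u _ => ?_
    rw [← Finset.sum_add_distrib]
    refine Finset.sum_le_sum fun v _ => ?_
    simp only [Finset.mem_singleton]
    by_cases h2 : u = w <;> by_cases h3 : v = w <;> simp [h2, h3]
  have hdeg : ∀ w, (univ.filter fun e : E => s e = w).card + (univ.filter fun e : E => t e = w).card =
      2 * (ℓ + (dN w - ℓ)) := by
    intro w
    have h1 := htwo fun p => p.1 = w
    have h2 := htwo fun p => p.2 = w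
    simp only at h1 h2
    have h3 := hdN w
    have h4 : (univ.filter fun e : E => s e = w).card + (univ.filter fun e : E => t e = w).card =
        2 * dN w := by
      simp only [dN, mul_add]
      rw [← h1, ← h2]
    rw [h4]
    omega
  have : Nonempty V := hG.nonempty
  obtain ⟨L, hL⟩ := exists_rig s t hℓpos (c := fun w => dN w - ℓ) (fun e => (hadj e).ne) hdeg hcut
  have hup := limit_upper hG (D := ℓ + ℓ) (by omega) (by
    intro e he
    rw [List.mem_map] at he
    obtain ⟨e', _, rfl⟩ := he
    exact hadj e') hL (ε / 2) (by positivity)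
  have hlen : ((((univ : Finset E).toList.map fun e => (s e, t e, L e)).length : ℕ) : ℝ) /
      ((ℓ + ℓ : ℕ) : ℝ) ≤ fc G + ε / 2 := by
    rw [List.length_map, Finset.length_toList, Finset.card_univ]
    have h1 : Fintype.card E = 2 * ∑ u, ∑ v, N (u, v) := by
      have h2 := htwo fun _ => True
      simp only [if_true] at h2
      rw [← h2, Finset.filter_true, Finset.card_univ]
    rw [h1]
    have h2 : (∑ u, ∑ v, (N (u, v) : ℝ)) ≤ fc G * ℓ + Fintype.card V * Fintype.card V := by
      calc (∑ u, ∑ v, (N (u, v) : ℝ)) ≤ ∑ u, ∑ v, (y u v * ℓ + 1) :=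
            Finset.sum_le_sum fun u _ => Finset.sum_le_sum fun v _ => hN2 u v
        _ = (∑ u, ∑ v, y u v) * ℓ + Fintype.card V * Fintype.card V := by
            simp only [Finset.sum_add_distrib, Finset.sum_mul]
            simp
        _ ≤ _ := by
            have := mul_le_mul_of_nonneg_right hysum hℓ0.le
            linarith
    push_cast
    rw [div_le_iff₀ (by positivity)]
    rw [div_lt_iff₀ (by positivity)] at hℓ1
    nlinarith
  filter_upwards [hup] with n hn
  refine hn.trans ?_
  have hn0 : (0 : ℝ) ≤ n := Nat.cast_nonneg n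
  refine mul_le_mul_of_nonneg_right ?_ hn0
  linarith

/-- **Lower bound.** -/
theorem lower (hG : G.Connected) (n : ℕ) : fc G * n ≤ eqCost G (Fin n → Bool) := by
  classical
  obtain ⟨⟨g, hg, hsum⟩, _⟩ := fc_isGreatest G
  let g' : Finset V → ℝ := fun S => if h : S.Nonempty ∧ S ≠ univ then g ⟨S, h⟩ else 0
  have hg' : ∀ C : Cut V, g' C.1 = g C := fun C => by
    simp only [g']
    rw [dif_pos C.2]
  have hs : ∀ (F : Finset V → ℝ), (∀ S, ¬ (S.Nonempty ∧ S ≠ univ) → F S = 0) →
      ∑ S, F S = ∑ C : Cut V, F C.1 := by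
    intro F hF
    rw [← Finset.sum_subtype (univ.filter fun S : Finset V => S.Nonempty ∧ S ≠ univ) (by simp) F]
    rw [Finset.sum_filter]
    refine Finset.sum_congr rfl fun S _ => ?_
    split_ifs with h
    · rfl
    · exact hF S h
  have h1 := eqCost_ge hG n g' (by
    intro S
    simp only [g']
    split_ifs with h
    · exact (hg.1 _).1
    · exact le_refl _) (by
    intro S hS
    by_contra hcon
    apply hS
    simp only [g']
    rw [dif_neg hcon]) (by
    intro u v huv
    rw [hs _ (by
      intro S hS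
      split_ifs
      · rfl
      · simp only [g']
        rw [dif_neg hS])]
    simp only [hg']
    exact hg.2 u v huv)
  rw [hs _ (by
    intro S hS
    simp only [g']
    rw [dif_neg hS])] at h1
  simp only [hg'] at h1
  rw [hsum] at h1
  exact h1

/-- **Main theorem.** -/
theorem rate (hG : G.Connected) (hV : 2 ≤ Fintype.card V) :
    Tendsto (fun n : ℕ => (eqCost G (Fin n → Bool) : ℝ) / n) atTop (𝓝 (fc G)) :=
  tendsto_of_bounds (lower hG) (upper hG hV)

end Pool.Agent.V11247.EqG
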