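import Mathlib
import Pool.Agent.Helper411.Union

/-!
# Forest and star decompositions of highly edge-connected multigraphs
-/

set_option autoImplicit false

namespace Pool.Agent.V11247.EqG

open Finset Submodule Module

section Forest

variable {V E : Type} [Fintype V] [DecidableEq V] [Fintype E] [DecidableEq E]

/-- incidence vector of an edge -/
def ivec (s t : E → V) (e : E) : V → ℚ := Pi.single (s e) 1 - Pi.single (t e) 1

/-- vertices joined modulo a subspace -/
def cls (U : Submodule ℚ (V → ℚ)) : Setoid V where
  r u v := (Pi.single u 1 - Pi.single v 1 : V → ℚ) ∈ U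
  iseqv := {
    refl := fun u => by rw [sub_self]; exact U.zero_mem
    symm := fun {u v} h => by
      have := U.neg_mem h
      rwa [neg_sub] at this
    trans := fun {u v w} h1 h2 => by
      have := U.add_mem h1 h2
      rwa [sub_add_sub_cancel] at this }

theorem cls_rank (U : Submodule ℚ (V → ℚ)) [DecidableEq (Quotient (cls U))] 
    [Fintype (Quotient (cls U))] :
    Fintype.card V ≤ finrank ℚ U + Fintype.card (Quotient (cls U)) := by
  classical
  let π : (V → ℚ) →ₗ[ℚ] (Quotient (cls U) → ℚ) :=
    { toFun := fun x q => ∑ v, if (Quotient.mk (cls U) v) = q then x v else 0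
      map_add' := fun x y => by
        funext q
        simp only [Pi.add_apply]
        rw [← Finset.sum_add_distrib]
        refine Finset.sum_congr rfl fun v _ => ?_
        split_ifs <;> simp
      map_smul' := fun a x => by
        funext q
        simp only [Pi.smul_apply, smul_eq_mul, RingHom.id_apply]
        rw [Finset.mul_sum]
        refine Finset.sum_congr rfl fun v _ => ?_
        split_ifs <;> simp }
  have hker : LinearMap.ker π ≤ U := by
    intro x hx
    rw [LinearMap.mem_ker] at hx
    have h1 : ∀ q : Quotient (cls U), ∑ v, (if (Quotient.mk (cls U) v) = q then x v else 0) = 0 := fun q =>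
      congrFun hx q
    have h2 : x = ∑ v, x v • ((Pi.single v 1 : V → ℚ) -
        Pi.single (Quotient.out (Quotient.mk (cls U) v)) 1) := by
      simp only [smul_sub]
      rw [Finset.sum_sub_distrib]
      have h3 : ∑ v, x v • (Pi.single v 1 : V → ℚ) = x := by
        funext w
        rw [Finset.sum_apply]
        simp [Pi.single_apply]
      have h4 : ∑ v, x v • (Pi.single (Quotient.out (Quotient.mk (cls U) v)) 1 : V → ℚ) = 0 := by
        have h5 : ∀ v, x v • (Pi.single (Quotient.out (Quotient.mk (cls U) v)) 1 : V → ℚ) =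
            ∑ q : Quotient (cls U), (if (Quotient.mk (cls U) v) = q then x v else 0) •
              (Pi.single (Quotient.out q) 1 : V → ℚ) := by
          intro v
          simp only [ite_smul, zero_smul]
          rw [Finset.sum_ite_eq]
          simp
        simp only [h5]
        rw [Finset.sum_comm]
        refine Finset.sum_eq_zero fun q _ => ?_
        rw [← Finset.sum_smul, h1 q, zero_smul]
      rw [h3, h4, sub_zero]
    rw [h2]
    refine Submodule.sum_mem _ fun v _ => U.smul_mem _ ?_
    exact (cls U).symm (Quotient.mk_out (s := cls U) v)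
  have h1 := LinearMap.finrank_range_add_finrank_ker π
  rw [Module.finrank_fintype_fun_eq_card] at h1
  have h2 : finrank ℚ (LinearMap.range π) ≤ Fintype.card (Quotient (cls U)) := by
    have := Submodule.finrank_le (LinearMap.range π)
    rwa [Module.finrank_fintype_fun_eq_card] at this
  have h3 : finrank ℚ (LinearMap.ker π) ≤ finrank ℚ U := Submodule.finrank_mono hker
  omega

variable (s t : E → V)

theorem inner_card {ℓ : ℕ} {c : V → ℕ}
    (hdeg : ∀ v, (univ.filter fun e => s e = v).card + (univ.filter fun e => t e = v).card =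
      2 * (ℓ + c v))
    (hcut : ∀ S : Finset V, S.Nonempty → S ≠ univ →
      2 * ℓ ≤ (univ.filter fun e => ¬ (s e ∈ S ↔ t e ∈ S)).card)
    (r : V) (S : Finset V) (hS : S.Nonempty) :
    (univ.filter fun e => s e ∈ S ∧ t e ∈ S).card + ℓ ≤
      ℓ * S.card + ∑ v ∈ S, (c v + if v = r then ℓ else 0) := by
  have h1 : ∑ v ∈ S, ((univ.filter fun e => s e = v).card + (univ.filter fun e => t e = v).card) =
      2 * (univ.filter fun e => s e ∈ S ∧ t e ∈ S).card +
        (univ.filter fun e => ¬ (s e ∈ S ↔ t e ∈ S)).card := by
    simp only [Finset.card_filter]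
    rw [Finset.sum_add_distrib, Finset.sum_comm, Finset.sum_comm (s := S) (t := univ), ← Finset.sum_add_distrib,
      Finset.mul_sum, ← Finset.sum_add_distrib]
    refine Finset.sum_congr rfl fun e _ => ?_
    rw [Finset.sum_ite_eq, Finset.sum_ite_eq]
    by_cases h1 : s e ∈ S <;> by_cases h2 : t e ∈ S <;> simp [h1, h2]
  rw [Finset.sum_congr rfl fun v _ => hdeg v, ← Finset.mul_sum, Finset.sum_add_distrib,
    Finset.sum_const, smul_eq_mul] at h1
  rw [Finset.sum_add_distrib]
  by_cases hu : S = univ
  · have h2 : ∑ v ∈ S, (if v = r then ℓ else 0) = ℓ := by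
      rw [Finset.sum_ite_eq', hu]; simp
    rw [h2]
    have : S.card * ℓ = ℓ * S.card := mul_comm _ _
    omega
  · have h2 := hcut S hS hu
    have : S.card * ℓ = ℓ * S.card := mul_comm _ _
    omega

/-- The counting condition of the matroid union theorem. -/
theorem count {ℓ : ℕ} {c : V → ℕ} (hst : ∀ e, s e ≠ t e)
    (hdeg : ∀ v, (univ.filter fun e => s e = v).card + (univ.filter fun e => t e = v).card =
      2 * (ℓ + c v))
    (hcut : ∀ S : Finset V, S.Nonempty → S ≠ univ →
      2 * ℓ ≤ (univ.filter fun e => ¬ (s e ∈ S ↔ t e ∈ S)).card)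
    (r : V) (F : Finset E) :
    F.card ≤ ℓ * finrank ℚ (span ℚ (ivec s t '' (F : Set E))) +
      ∑ v, if ∃ e ∈ F, s e = v ∨ t e = v then (c v + if v = r then ℓ else 0) else 0 := by
  classical
  set U := span ℚ (ivec s t '' (F : Set E)) with hU
  let inst : Fintype (Quotient (cls U)) := Fintype.ofFinite _
  have hrank := cls_rank U
  let mk : V → Quotient (cls U) := Quotient.mk (cls U)
  have hF : ∀ e ∈ F, mk (s e) = mk (t e) := by
    intro e he
    apply Quotient.sound
    exact subset_span ⟨e, he, rfl⟩
  have hcov : ∀ e ∈ F, ∀ u, mk u = mk (s e) → ∃ e ∈ F, s e = u ∨ t e = u := by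
    intro e he u hu
    by_contra hcon
    push Not at hcon
    have h1 : u ≠ s e := fun h => (hcon e he).1 h.symm
    have h2 : (Pi.single u 1 - Pi.single (s e) 1 : V → ℚ) ∈ U := Quotient.exact hu
    have h3 : ∀ x ∈ U, x u = 0 := by
      intro x hx
      rw [hU] at hx
      induction hx using Submodule.span_induction with
      | mem x hx =>
        obtain ⟨e', he', rfl⟩ := hx
        have h4 := hcon e' he'
        simp only [ivec, Pi.sub_apply]
        rw [Pi.single_eq_of_ne (fun h => h4.1 h.symm), Pi.single_eq_of_ne (fun h => h4.2 h.symm), sub_zero]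
      | zero => rfl
      | add x y _ _ hx hy => rw [Pi.add_apply, hx, hy, add_zero]
      | smul a x _ hx => rw [Pi.smul_apply, hx, smul_zero]
    have h4 := h3 _ h2
    rw [Pi.sub_apply, Pi.single_eq_same, Pi.single_eq_of_ne h1] at h4
    norm_num at h4
  have hfib := Finset.card_eq_sum_card_fiberwise (f := fun e => mk (s e)) (s := F)
    (t := (Finset.univ : Finset (Quotient (cls U)))) (fun a _ => Finset.mem_coe.2 (Finset.mem_univ _))
  have hVfib := Finset.card_eq_sum_card_fiberwise (f := mk) (s := (Finset.univ : Finset V))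
    (t := (Finset.univ : Finset (Quotient (cls U)))) (fun a _ => Finset.mem_coe.2 (Finset.mem_univ _))
  have hq : ∀ q : Quotient (cls U), (F.filter fun e => mk (s e) = q).card + ℓ ≤
      ℓ * (univ.filter fun v => mk v = q).card + ∑ v ∈ univ.filter (fun v => mk v = q),
        (if ∃ e ∈ F, s e = v ∨ t e = v then (c v + if v = r then ℓ else 0) else 0) := by
    intro q
    have hne : (univ.filter fun v => mk v = q).Nonempty := by
      refine ⟨Quotient.out q, ?_⟩
      rw [mem_filter]
      exact ⟨mem_univ _, Quotient.out_eq q⟩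
    by_cases hem : (F.filter fun e => mk (s e) = q) = ∅
    · rw [hem, card_empty, zero_add]
      have h1 : 1 ≤ (univ.filter fun v => mk v = q).card := Finset.card_pos.2 hne
      calc ℓ = ℓ * 1 := (mul_one _).symm
        _ ≤ ℓ * (univ.filter fun v => mk v = q).card := Nat.mul_le_mul_left _ h1
        _ ≤ _ := Nat.le_add_right _ _
    · obtain ⟨e0, he0⟩ := Finset.nonempty_iff_ne_empty.2 hem
      rw [mem_filter] at he0
      have h1 := inner_card s t hdeg hcut r (univ.filter fun v => mk v = q) hne
      have h2 : (F.filter fun e => mk (s e) = q).card ≤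
          (univ.filter fun e => s e ∈ (univ.filter fun v => mk v = q) ∧
            t e ∈ (univ.filter fun v => mk v = q)).card := by
        apply Finset.card_le_card
        intro e he
        rw [mem_filter] at he
        simp only [mem_filter, mem_univ, true_and]
        exact ⟨he.2, (hF e he.1).symm.trans he.2⟩
      have h3 : ∑ v ∈ univ.filter (fun v => mk v = q),
          (if ∃ e ∈ F, s e = v ∨ t e = v then (c v + if v = r then ℓ else 0) else 0) =
          ∑ v ∈ univ.filter (fun v => mk v = q), (c v + if v = r then ℓ else 0) := by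
        refine Finset.sum_congr rfl fun v hv => ?_
        rw [mem_filter] at hv
        rw [if_pos (hcov e0 he0.1 v (hv.2.trans he0.2.symm))]
      rw [h3]
      omega
  have hsum := Finset.sum_le_sum fun q (_ : q ∈ (univ : Finset (Quotient (cls U)))) => hq q
  rw [Finset.sum_add_distrib, Finset.sum_add_distrib, ← hfib, ← Finset.mul_sum, ← hVfib,
    Finset.sum_const, smul_eq_mul, Finset.card_univ, Finset.card_univ,
    Finset.sum_fiberwise] at hsum
  have h5 : ℓ * Fintype.card V ≤ ℓ * (finrank ℚ U + Fintype.card (Quotient (cls U))) := Nat.mul_le_mul_left _ hrank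
  rw [mul_add] at h5
  have h6 : Fintype.card (Quotient (cls U)) * ℓ = ℓ * Fintype.card (Quotient (cls U)) := mul_comm _ _
  omega

/-- The rows: `ℓ` copies of the graphic matroid and, at each vertex, some copies of the star. -/
def row (ℓ : ℕ) (c : V → ℕ) (r : V) : (Fin ℓ ⊕ (Σ v : V, Fin (c v + ℓ))) → E → V → ℚ
  | Sum.inl _, e => ivec s t e
  | Sum.inr ⟨v, j⟩, e => if ((j : ℕ) < c v ∨ v = r) ∧ (s e = v ∨ t e = v) then Pi.single v 1 else 0

theorem exists_partition {ℓ : ℕ} (hℓ : 0 < ℓ) {c : V → ℕ} (hst : ∀ e, s e ≠ t e)
    (hdeg : ∀ v, (univ.filter fun e => s e = v).card + (univ.filter fun e => t e = v).card =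
      2 * (ℓ + c v))
    (hcut : ∀ S : Finset V, S.Nonempty → S ≠ univ →
      2 * ℓ ≤ (univ.filter fun e => ¬ (s e ∈ S ↔ t e ∈ S)).card)
    (r : V) : ∃ f : E → (Fin ℓ ⊕ (Σ v : V, Fin (c v + ℓ))), ∀ (g : E → ℚ),
      (∀ i, ∑ e, (g e * if f e = i then 1 else 0) • row s t ℓ c r i e = 0) → g = 0 := by
  classical
  have : Nonempty (Fin ℓ ⊕ (Σ v : V, Fin (c v + ℓ))) := ⟨Sum.inl ⟨0, hℓ⟩⟩
  obtain ⟨f, hf⟩ := Pool.Agent.Helper411.union_indep (K := ℚ) (row s t ℓ c r) (univ : Finset E).card
    univ (fun _ => ⊥) rfl (by
      intro F _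
      have h0 : ∑ i : (Fin ℓ ⊕ (Σ v : V, Fin (c v + ℓ))),
          finrank ℚ ((fun _ => (⊥ : Submodule ℚ (V → ℚ))) i) = 0 := by simp
      rw [h0, zero_add]
      refine (count s t hst hdeg hcut r F).trans ?_
      rw [Fintype.sum_sum_type, Fintype.sum_sigma]
      have h1 : ∀ i : Fin ℓ, Pool.Agent.Helper411.rk (⊥ : Submodule ℚ (V → ℚ))
          (row s t ℓ c r (Sum.inl i)) F = finrank ℚ (span ℚ (ivec s t '' (F : Set E))) := by
        intro i
        unfold Pool.Agent.Helper411.rk
        rw [bot_sup_eq]
        rfl
      rw [Finset.sum_congr rfl fun i _ => h1 i, Finset.sum_const, Finset.card_univ,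
        Fintype.card_fin, smul_eq_mul]
      refine Nat.add_le_add_left (Finset.sum_le_sum fun v _ => ?_) _
      split_ifs with hcov hvr
      · obtain ⟨e, he, hev⟩ := hcov
        have h2 : ∀ j : Fin (c v + ℓ), 1 ≤ Pool.Agent.Helper411.rk (⊥ : Submodule ℚ (V → ℚ))
            (row s t ℓ c r (Sum.inr ⟨v, j⟩)) F := by
          intro j
          unfold Pool.Agent.Helper411.rk
          rw [bot_sup_eq]
          have h3 : (Pi.single v 1 : V → ℚ) ∈ span ℚ (row s t ℓ c r (Sum.inr ⟨v, j⟩) '' (F : Set E)) := by
            apply subset_span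
            refine ⟨e, he, ?_⟩
            simp only [row]
            rw [if_pos ⟨Or.inr hvr, hev⟩]
          rw [Nat.one_le_iff_ne_zero]
          intro h4
          rw [Submodule.finrank_eq_zero] at h4
          rw [h4, Submodule.mem_bot] at h3
          have := congrFun h3 v
          simp at this
        calc c v + ℓ = ∑ _j : Fin (c v + ℓ), 1 := by simp
          _ ≤ _ := Finset.sum_le_sum fun j _ => h2 j
      · obtain ⟨e, he, hev⟩ := hcov
        have h2 : ∀ j : Fin (c v + ℓ), (if (j : ℕ) < c v then 1 else 0) ≤ Pool.Agent.Helper411.rk (⊥ : Submodule ℚ (V → ℚ))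
            (row s t ℓ c r (Sum.inr ⟨v, j⟩)) F := by
          intro j
          split_ifs with hj
          · unfold Pool.Agent.Helper411.rk
            rw [bot_sup_eq]
            have h3 : (Pi.single v 1 : V → ℚ) ∈ span ℚ (row s t ℓ c r (Sum.inr ⟨v, j⟩) '' (F : Set E)) := by
              apply subset_span
              refine ⟨e, he, ?_⟩
              simp only [row]
              rw [if_pos ⟨Or.inl hj, hev⟩]
            rw [Nat.one_le_iff_ne_zero]
            intro h4
            rw [Submodule.finrank_eq_zero] at h4
            rw [h4, Submodule.mem_bot] at h3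
            have := congrFun h3 v
            simp at this
          · exact Nat.zero_le _
        calc c v + 0 = (univ.filter fun j : Fin (c v + ℓ) => (j : ℕ) < c v).card := by
              rw [Fin.card_filter_val_lt]; omega
          _ = ∑ j : Fin (c v + ℓ), (if (j : ℕ) < c v then 1 else 0) := Finset.card_filter _ _
          _ ≤ _ := Finset.sum_le_sum fun j _ => h2 j
      · exact Nat.zero_le _)
  refine ⟨f, fun g hg => ?_⟩
  have hind : ∀ i, LinearIndependent ℚ
      (fun e : {e // e ∈ (univ : Finset E).filter (fun e => f e = i)} => row s t ℓ c r i e.1) := by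
    intro i
    have h1 := hf i
    unfold Pool.Agent.Helper411.rk at h1
    rw [bot_sup_eq, finrank_bot, zero_add] at h1
    rw [linearIndependent_iff_card_eq_finrank_span, Set.finrank]
    have h2 : Set.range (fun e : {e // e ∈ (univ : Finset E).filter (fun e => f e = i)} =>
        row s t ℓ c r i e.1) = row s t ℓ c r i '' ((univ.filter (fun e => f e = i) : Finset E) : Set E) := by
      ext x
      simp
    rw [Fintype.card_coe, h2]
    exact h1.symm
  funext e0
  have h1 := hind (f e0)
  rw [Fintype.linearIndependent_iff] at h1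
  have h2 := h1 (fun e => g e.1) (by
    have h3 := hg (f e0)
    have h4 : ∑ e, (g e * if f e = f e0 then 1 else 0) • row s t ℓ c r (f e0) e =
        ∑ e ∈ univ.filter (fun e => f e = f e0), g e • row s t ℓ c r (f e0) e := by
      rw [Finset.sum_filter]
      refine Finset.sum_congr rfl fun e _ => ?_
      split_ifs <;> simp
    rw [h4, ← Finset.sum_coe_sort] at h3
    exact h3)
  exact h2 ⟨e0, by simp⟩

end Forest

end Pool.Agent.V11247.EqG
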