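import Mathlib

/-!
# Generic points
-/

set_option autoImplicit false

namespace Pool.Agent.V11247.EqG

open Finset Matrix

/-- the matrix of the condition -/
def cmat {ι E W : Type} {A : Type} [CommRing A] [Algebra ℚ A] (z : ι → E → W → ℚ)
    (X : ι → E → A) : Matrix (ι × W) E A :=
  Matrix.of fun iw e => X iw.1 e * algebraMap ℚ A (z iw.1 e iw.2)

theorem det_iff {ι E W : Type} [Fintype ι] [Fintype E] [DecidableEq E] [Fintype W]
    (z : ι → E → W → ℚ) (X : ι → E → ℚ) :
    ((cmat z X)ᵀ * cmat z X).det ≠ 0 ↔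
      ∀ g : E → ℚ, (∀ i, ∑ e, (g e * X i e) • z i e = 0) → g = 0 := by
  have h1 : ∀ g : E → ℚ, (∀ i, ∑ e, (g e * X i e) • z i e = 0) ↔ cmat z X *ᵥ g = 0 := by
    intro g
    constructor
    · intro h
      funext iw
      have h2 := congrFun (h iw.1) iw.2
      rw [Finset.sum_apply] at h2
      simp only [Pi.smul_apply, smul_eq_mul, Pi.zero_apply] at h2
      rw [Pi.zero_apply, ← h2]
      simp only [cmat, mulVec, dotProduct, Matrix.of_apply]
      refine Finset.sum_congr rfl fun e _ => ?_
      simp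
      ring
    · intro h i
      funext w
      have h2 := congrFun h (i, w)
      rw [Pi.zero_apply] at h2
      rw [Finset.sum_apply, Pi.zero_apply, ← h2]
      simp only [cmat, mulVec, dotProduct, Matrix.of_apply, Pi.smul_apply, smul_eq_mul]
      refine Finset.sum_congr rfl fun e _ => ?_
      simp
      ring
  have hk := ker_mulVecLin_transpose_mul_self (cmat z X)
  have h2 : ∀ g : E → ℚ, ((cmat z X)ᵀ * cmat z X) *ᵥ g = 0 ↔ cmat z X *ᵥ g = 0 := by
    intro g
    have h3 : g ∈ LinearMap.ker ((cmat z X)ᵀ * cmat z X).mulVecLin ↔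
        g ∈ LinearMap.ker (cmat z X).mulVecLin := by rw [hk]
    rw [LinearMap.mem_ker, LinearMap.mem_ker, mulVecLin_apply, mulVecLin_apply] at h3
    exact h3
  rw [Ne, ← exists_mulVec_eq_zero_iff]
  push Not
  constructor
  · intro h g hg
    by_contra hne
    exact h g hne ((h2 g).2 ((h1 g).1 hg))
  · intro h g hne hg
    exact hne (h g ((h1 g).2 ((h2 g).1 hg)))

/-- Finitely many rank conditions each of which holds at some point hold at a common point. -/
theorem exists_common {R ι E W : Type} [Fintype R] [Fintype ι] [Fintype E] [Fintype W]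
    (z : R → ι → E → W → ℚ)
    (h : ∀ r, ∃ X : ι → E → ℚ, ∀ g : E → ℚ, (∀ i, ∑ e, (g e * X i e) • z r i e = 0) → g = 0) :
    ∃ X : ι → E → ℚ, ∀ r, ∀ g : E → ℚ, (∀ i, ∑ e, (g e * X i e) • z r i e = 0) → g = 0 := by
  classical
  let T : R → Matrix (ι × W) E (MvPolynomial (ι × E) ℚ) := fun r =>
    cmat (z r) fun i e => MvPolynomial.X (i, e)
  let P : R → MvPolynomial (ι × E) ℚ := fun r => ((T r)ᵀ * T r).det
  have heval : ∀ (x : ι × E → ℚ) r, MvPolynomial.eval x (P r) =
      ((cmat (z r) fun i e => x (i, e))ᵀ * cmat (z r) fun i e => x (i, e)).det := by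
    intro x r
    simp only [P]
    rw [RingHom.map_det, RingHom.mapMatrix_apply, Matrix.map_mul]
    have h1 : (T r).map (MvPolynomial.eval x) = cmat (z r) fun i e => x (i, e) := by
      ext iw e
      simp [T, cmat]
    have h2 : (T r)ᵀ.map (MvPolynomial.eval x) = (cmat (z r) fun i e => x (i, e))ᵀ := by
      rw [← h1]
      rfl
    rw [h1, h2]
  have hne : ∀ r, P r ≠ 0 := by
    intro r h0
    obtain ⟨X, hX⟩ := h r
    have h1 := (det_iff (z r) X).2 hX
    apply h1
    have h2 := heval (fun p => X p.1 p.2) r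
    rw [h0, map_zero] at h2
    exact h2.symm
  have hprod : ∏ r, P r ≠ 0 := Finset.prod_ne_zero_iff.2 fun r _ => hne r
  obtain ⟨x, hx⟩ : ∃ x : ι × E → ℚ, MvPolynomial.eval x (∏ r, P r) ≠ 0 := by
    by_contra hcon
    push Not at hcon
    apply hprod
    apply MvPolynomial.funext
    intro x
    rw [hcon x, map_zero]
  rw [map_prod, Finset.prod_ne_zero_iff] at hx
  refine ⟨fun i e => x (i, e), fun r => ?_⟩
  rw [← det_iff, ← heval]
  exact hx r (mem_univ r)

end Pool.Agent.V11247.EqG
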