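import Pool.Agent.V11247.EqG.Forest
import Pool.Agent.V11247.EqG.Generic

/-!
# Stresses of generic frameworks
-/

set_option autoImplicit false
set_option linter.unusedSectionVars false

namespace Pool.Agent.V11247.EqG

open Finset Module

section Stress

variable {V E : Type} [Fintype V] [DecidableEq V] [Fintype E]
variable (s t : E → V) {ℓ : ℕ} {c : V → ℕ}

/-- the index type of the rows -/
abbrev Row (ℓ : ℕ) (c : V → ℕ) : Type := Fin ℓ ⊕ (Σ v : V, Fin (c v + ℓ))

variable (X : Row ℓ c → E → ℚ)

/-- the boundary of `g * α_i` at `u` -/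
def bd (g : E → ℚ) (i : Fin ℓ) (u : V) : ℚ := ∑ e, g e * X (Sum.inl i) e * ivec s t e u

/-- the star functional -/
def star (g : E → ℚ) (v : V) (j : Fin (c v + ℓ)) : ℚ :=
  ∑ e, if s e = v ∨ t e = v then g e * X (Sum.inr ⟨v, j⟩) e else 0

theorem bd_add (g h : E → ℚ) (i : Fin ℓ) (u : V) :
    bd s t X (g + h) i u = bd s t X g i u + bd s t X h i u := by
  unfold bd
  rw [← Finset.sum_add_distrib]
  refine Finset.sum_congr rfl fun e _ => ?_
  rw [Pi.add_apply]; ring

theorem bd_smul (a : ℚ) (g : E → ℚ) (i : Fin ℓ) (u : V) :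
    bd s t X (a • g) i u = a * bd s t X g i u := by
  unfold bd
  rw [Finset.mul_sum]
  refine Finset.sum_congr rfl fun e _ => ?_
  rw [Pi.smul_apply, smul_eq_mul]; ring

theorem star_add (g h : E → ℚ) (v : V) (j : Fin (c v + ℓ)) :
    star s t X (g + h) v j = star s t X g v j + star s t X h v j := by
  unfold star
  rw [← Finset.sum_add_distrib]
  refine Finset.sum_congr rfl fun e _ => ?_
  rw [Pi.add_apply]
  split_ifs
  · ring
  · ring

theorem star_smul (a : ℚ) (g : E → ℚ) (v : V) (j : Fin (c v + ℓ)) :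
    star s t X (a • g) v j = a * star s t X g v j := by
  unfold star
  rw [Finset.mul_sum]
  refine Finset.sum_congr rfl fun e _ => ?_
  rw [Pi.smul_apply, smul_eq_mul]
  split_ifs
  · ring
  · ring

theorem sum_ivec (e : E) : ∑ u, ivec s t e u = 0 := by
  simp [ivec]

theorem sum_bd (g : E → ℚ) (i : Fin ℓ) : ∑ u, bd s t X g i u = 0 := by
  unfold bd
  rw [Finset.sum_comm]
  refine Finset.sum_eq_zero fun e _ => ?_
  rw [← Finset.mul_sum, sum_ivec, mul_zero]

theorem pairing (g : E → ℚ) (a : V → Fin ℓ → ℚ) :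
    ∑ e, g e * ∑ i, X (Sum.inl i) e * (a (s e) i - a (t e) i) =
      ∑ i, ∑ u, a u i * bd s t X g i u := by
  unfold bd
  simp only [Finset.mul_sum]
  rw [Finset.sum_comm]
  refine Finset.sum_congr rfl fun i _ => ?_
  rw [Finset.sum_comm]
  refine Finset.sum_congr rfl fun e _ => ?_
  have h1 : ∀ u, a u i * (g e * X (Sum.inl i) e * ivec s t e u) =
      (g e * X (Sum.inl i) e) * (a u i * ivec s t e u) := fun u => by ring
  simp only [h1]
  rw [← Finset.mul_sum]
  have h2 : ∑ u, a u i * ivec s t e u = a (s e) i - a (t e) i := by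
    simp only [ivec, Pi.sub_apply, mul_sub]
    rw [Finset.sum_sub_distrib]
    simp [Pi.single_apply]
  rw [h2]
  ring

variable {s t X}

theorem rows_zero (hst : ∀ e, s e ≠ t e) {g : E → ℚ} {r : V} (h1 : ∀ i u, bd s t X g i u = 0)
    (h2 : ∀ v (j : Fin (c v + ℓ)), ((j : ℕ) < c v ∨ v = r) → star s t X g v j = 0) :
    ∀ i, ∑ e, (g e * X i e) • row s t ℓ c r i e = 0 := by
  rintro (i | ⟨v, j⟩)
  · funext u
    rw [Finset.sum_apply, Pi.zero_apply]
    simp only [Pi.smul_apply, smul_eq_mul, row]
    exact h1 i u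
  · by_cases hact : (j : ℕ) < c v ∨ v = r
    · have h3 := h2 v j hact
      have h4 : ∑ e, (g e * X (Sum.inr ⟨v, j⟩) e) • row s t ℓ c r (Sum.inr ⟨v, j⟩) e =
          (star s t X g v j) • (Pi.single v 1 : V → ℚ) := by
        unfold star
        rw [Finset.sum_smul]
        refine Finset.sum_congr rfl fun e _ => ?_
        simp only [row]
        by_cases he : s e = v ∨ t e = v
        · rw [if_pos ⟨hact, he⟩, if_pos he]
        · rw [if_neg (fun h => he h.2), if_neg he]
          simp
      rw [h4, h3, zero_smul]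
    · refine Finset.sum_eq_zero fun e _ => ?_
      simp only [row]
      rw [if_neg (fun h => hact h.1), smul_zero]

/-- The linear map whose kernel is the space of stresses. -/
def stressMap (s t : E → V) (X : Row ℓ c → E → ℚ) (r : V) : (E → ℚ) →ₗ[ℚ]
    (Fin ℓ → {v // v ≠ r} → ℚ) × ((Σ v : V, Fin (c v)) → ℚ) where
  toFun g := (fun i v => bd s t X g i v.1, fun p => star s t X g p.1 (Fin.castAdd ℓ p.2))
  map_add' g h := by
    ext
    · simp [bd_add]
    · simp [star_add]
  map_smul' a g := by
    ext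
    · simp [bd_smul]
    · simp [star_smul]

/-- The extended linear map. -/
def fullMap (s t : E → V) (X : Row ℓ c → E → ℚ) (r : V) : (E → ℚ) →ₗ[ℚ]
    ((Fin ℓ → {v // v ≠ r} → ℚ) × ((Σ v : V, Fin (c v)) → ℚ)) × (Fin ℓ → ℚ) where
  toFun g := ((fun i v => bd s t X g i v.1, fun p => star s t X g p.1 (Fin.castAdd ℓ p.2)),
    fun j => star s t X g r (Fin.natAdd (c r) j))
  map_add' g h := by
    ext
    · simp [bd_add]
    · simp [star_add]
    · simp [star_add]
  map_smul' a g := by
    ext
    · simp [bd_smul]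
    · simp [star_smul]
    · simp [star_smul]

theorem bd_of {g : E → ℚ} {r : V} {i : Fin ℓ} (h : ∀ v : {v // v ≠ r}, bd s t X g i v.1 = 0)
    (u : V) : bd s t X g i u = 0 := by
  by_cases hu : u = r
  · subst hu
    have h1 := sum_bd s t X g i
    rw [← Finset.add_sum_erase _ _ (mem_univ u)] at h1
    have h2 : ∑ v ∈ univ.erase u, bd s t X g i v = 0 :=
      Finset.sum_eq_zero fun v hv => h ⟨v, (mem_erase.1 hv).1⟩
    rw [h2, add_zero] at h1
    exact h1
  · exact h ⟨u, hu⟩

theorem mem_ker_iff {g : E → ℚ} {r : V} : g ∈ LinearMap.ker (stressMap s t X r) ↔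
    (∀ i u, bd s t X g i u = 0) ∧ ∀ v (j : Fin (c v)), star s t X g v (Fin.castAdd ℓ j) = 0 := by
  rw [LinearMap.mem_ker]
  constructor
  · intro h
    have h1 := congrArg Prod.fst h
    have h2 := congrArg Prod.snd h
    refine ⟨fun i u => bd_of (r := r) (fun v => ?_) u, fun v j => ?_⟩
    · exact congrFun (congrFun h1 i) v
    · exact congrFun h2 ⟨v, j⟩
  · rintro ⟨h1, h2⟩
    refine Prod.ext ?_ ?_
    · funext i v
      exact h1 i v.1
    · funext p
      exact h2 p.1 p.2

/-- Genericity: the full system is injective for each root. -/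
def Gen (s t : E → V) (X : Row ℓ c → E → ℚ) : Prop :=
  ∀ r, ∀ g : E → ℚ, (∀ i, ∑ e, (g e * X i e) • row s t ℓ c r i e = 0) → g = 0

theorem stress_eq_zero (hst : ∀ e, s e ≠ t e) (hX : Gen s t X) {r : V} {g : E → ℚ}
    (hg : g ∈ LinearMap.ker (stressMap s t X r)) (v0 : V)
    (h0 : ∀ e, s e = v0 ∨ t e = v0 → g e = 0) : g = 0 := by
  rw [mem_ker_iff] at hg
  refine hX v0 g (rows_zero hst hg.1 fun v j hj => ?_)
  by_cases hv : v = v0
  · subst hv
    unfold star
    refine Finset.sum_eq_zero fun e _ => ?_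
    split_ifs with he
    · rw [h0 e he, zero_mul]
    · rfl
  · have hj' : (j : ℕ) < c v := by
      rcases hj with h | h
      · exact h
      · exact absurd h hv
    exact hg.2 v ⟨j, hj'⟩

theorem full_injective (hst : ∀ e, s e ≠ t e) (hX : Gen s t X) (r : V) :
    Function.Injective (fullMap s t X r) := by
  rw [← LinearMap.ker_eq_bot, LinearMap.ker_eq_bot']
  intro g hg
  have h1 := congrArg (fun q => q.1.1) hg
  have h2 := congrArg (fun q => q.1.2) hg
  have h3 := congrArg (fun q => q.2) hg
  refine hX r g (rows_zero hst (fun i u => bd_of (r := r) (fun v => ?_) u) fun v j hj => ?_)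
  · exact congrFun (congrFun h1 i) v
  · by_cases hj' : (j : ℕ) < c v
    · exact congrFun h2 ⟨v, ⟨j, hj'⟩⟩
    · have hv : v = r := by
        rcases hj with h | h
        · exact absurd h hj'
        · exact h
      subst hv
      have h4 := congrFun h3 ⟨(j : ℕ) - c v, by have := j.2; omega⟩
      have h5 : Fin.natAdd (c v) (⟨(j : ℕ) - c v, by have := j.2; omega⟩ : Fin ℓ) = j := by
        apply Fin.ext
        simp
        omega
      simp only [fullMap, LinearMap.coe_mk, AddHom.coe_mk] at h4
      rw [h5] at h4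
      exact h4

theorem card_edges (hdeg : ∀ v, (univ.filter fun e => s e = v).card +
    (univ.filter fun e => t e = v).card = 2 * (ℓ + c v)) :
    Fintype.card E = ℓ * Fintype.card V + ∑ v, c v := by
  have h1 : ∑ v, ((univ.filter fun e => s e = v).card + (univ.filter fun e => t e = v).card) =
      2 * Fintype.card E := by
    rw [Finset.sum_add_distrib]
    have h2 : ∀ f : E → V, ∑ v, (univ.filter fun e => f e = v).card = Fintype.card E := by
      intro f
      rw [← Finset.card_univ]
      exact (Finset.card_eq_sum_card_fiberwise (f := f) (s := univ) (t := univ)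
        (fun a _ => Finset.mem_coe.2 (Finset.mem_univ _))).symm
    rw [h2, h2]
    ring
  rw [Finset.sum_congr rfl fun v _ => hdeg v, ← Finset.mul_sum, Finset.sum_add_distrib,
    Finset.sum_const, Finset.card_univ, smul_eq_mul] at h1
  have : Fintype.card V * ℓ = ℓ * Fintype.card V := mul_comm _ _
  omega

theorem finrank_cod (r : V) : finrank ℚ ((Fin ℓ → {v // v ≠ r} → ℚ) × ((Σ v : V, Fin (c v)) → ℚ)) =
    ℓ * (Fintype.card V - 1) + ∑ v, c v := by
  rw [Module.finrank_prod, Module.finrank_fintype_fun_eq_card, Fintype.card_sigma,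
    Module.finrank_pi_fintype]
  simp only [Module.finrank_fintype_fun_eq_card, Finset.sum_const, Finset.card_univ,
    Fintype.card_fin, smul_eq_mul]
  congr 2
  rw [Fintype.card_subtype_compl, Fintype.card_subtype_eq]

theorem finrank_stress (hdeg : ∀ v, (univ.filter fun e => s e = v).card +
    (univ.filter fun e => t e = v).card = 2 * (ℓ + c v)) (r : V) :
    ℓ ≤ finrank ℚ (LinearMap.ker (stressMap s t X r)) := by
  have h1 := LinearMap.finrank_range_add_finrank_ker (stressMap s t X r)
  rw [Module.finrank_fintype_fun_eq_card, card_edges hdeg] at h1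
  have h2 := Submodule.finrank_le (LinearMap.range (stressMap s t X r))
  rw [finrank_cod] at h2
  have h3 : 1 ≤ Fintype.card V := Fintype.card_pos_iff.2 ⟨r⟩
  have h4 : ℓ * Fintype.card V = ℓ * (Fintype.card V - 1) + ℓ := by
    obtain ⟨k, hk⟩ := Nat.exists_eq_add_of_le h3
    rw [hk, Nat.add_sub_cancel_left]
    ring
  omega

theorem full_surjective (hst : ∀ e, s e ≠ t e) (hdeg : ∀ v, (univ.filter fun e => s e = v).card +
    (univ.filter fun e => t e = v).card = 2 * (ℓ + c v)) (hX : Gen s t X) (r : V) :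
    Function.Surjective (fullMap s t X r) := by
  rw [← LinearMap.injective_iff_surjective_of_finrank_eq_finrank]
  · exact full_injective hst hX r
  · rw [Module.finrank_prod, finrank_cod, Module.finrank_fintype_fun_eq_card,
      Module.finrank_fintype_fun_eq_card, card_edges hdeg, Fintype.card_fin]
    have h3 : 1 ≤ Fintype.card V := Fintype.card_pos_iff.2 ⟨r⟩
    have h4 : ℓ * Fintype.card V = ℓ * (Fintype.card V - 1) + ℓ := by
      obtain ⟨k, hk⟩ := Nat.exists_eq_add_of_le h3
      rw [hk, Nat.add_sub_cancel_left]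
      ring
    omega

/-- the first halves agree -/
theorem alpha_rigid (hst : ∀ e, s e ≠ t e) (hdeg : ∀ v, (univ.filter fun e => s e = v).card +
    (univ.filter fun e => t e = v).card = 2 * (ℓ + c v)) (hX : Gen s t X) (r : V)
    (a : V → Fin ℓ → ℚ) (ha : ∀ e, ∑ i, X (Sum.inl i) e * (a (s e) i - a (t e) i) = 0) (v : V)
    (i : Fin ℓ) : a v i = a r i := by
  by_cases hv : v = r
  · rw [hv]
  obtain ⟨g, hg⟩ := full_surjective hst hdeg hX r
    ((Pi.single i (Pi.single ⟨v, hv⟩ 1), 0), 0)
  have h1 := congrArg (fun q => q.1.1) hg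
  have h2 : ∀ i' (u : V) (hu : u ≠ r), bd s t X g i' u =
      (Pi.single i (Pi.single ⟨v, hv⟩ 1) : Fin ℓ → {v // v ≠ r} → ℚ) i' ⟨u, hu⟩ := by
    intro i' u hu
    exact congrFun (congrFun h1 i') ⟨u, hu⟩
  have h3 := pairing s t X g a
  rw [Finset.sum_eq_zero (fun e _ => by rw [ha e, mul_zero])] at h3
  have h4 : ∀ i', ∑ u, a u i' * bd s t X g i' u = if i' = i then a v i - a r i else 0 := by
    intro i'
    have h5 := sum_bd s t X g i'
    rw [← Finset.add_sum_erase _ _ (mem_univ r)] at h5
    rw [← Finset.add_sum_erase _ _ (mem_univ r)]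
    have h6 : bd s t X g i' r = - ∑ u ∈ univ.erase r, bd s t X g i' u := by linarith
    rw [h6]
    by_cases hi : i' = i
    · subst hi
      rw [if_pos rfl]
      have h7 : ∀ u ∈ univ.erase r, bd s t X g i' u = if u = v then 1 else 0 := by
        intro u hu
        rw [h2 i' u (mem_erase.1 hu).1, Pi.single_eq_same, Pi.single_apply]
        simp only [Subtype.mk.injEq]
      have h8 : ∑ u ∈ univ.erase r, bd s t X g i' u = 1 := by
        rw [Finset.sum_congr rfl h7, Finset.sum_ite_eq', if_pos (mem_erase.2 ⟨hv, mem_univ v⟩)]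
      have h9 : ∑ u ∈ univ.erase r, a u i' * bd s t X g i' u = a v i' := by
        have h10 : ∀ u ∈ univ.erase r, a u i' * bd s t X g i' u = if u = v then a u i' else 0 := by
          intro u hu
          rw [h7 u hu]
          split_ifs
          · rw [mul_one]
          · rw [mul_zero]
        rw [Finset.sum_congr rfl h10, Finset.sum_ite_eq', if_pos (mem_erase.2 ⟨hv, mem_univ v⟩)]
      rw [h8, h9]
      ring
    · rw [if_neg hi]
      have h7 : ∀ u ∈ univ.erase r, bd s t X g i' u = 0 := by
        intro u hu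
        rw [h2 i' u (mem_erase.1 hu).1, Pi.single_eq_of_ne hi]
        rfl
      rw [Finset.sum_eq_zero h7, Finset.sum_eq_zero fun u hu => by rw [h7 u hu, mul_zero]]
      simp
  simp only [h4] at h3
  rw [Finset.sum_ite_eq', if_pos (mem_univ i)] at h3
  linarith

/-- the difference map on families of stresses -/
def diffMap (s t : E → V) (X : Row ℓ c → E → ℚ) (r : V) :
    (V → LinearMap.ker (stressMap s t X r)) →ₗ[ℚ] (E → ℚ) where
  toFun p e := (p (s e)).1 e - (p (t e)).1 e
  map_add' p q := by
    funext e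
    simp
    ring
  map_smul' a p := by
    funext e
    simp
    ring

theorem ker_diffMap (hst : ∀ e, s e ≠ t e) (hX : Gen s t X) {r : V}
    {p : V → LinearMap.ker (stressMap s t X r)} (hp : diffMap s t X r p = 0) (v w : V) :
    p v = p w := by
  have h1 : ∀ e, (p (s e)).1 e = (p (t e)).1 e := fun e => sub_eq_zero.1 (congrFun hp e)
  let h : E → ℚ := fun e => (p (s e)).1 e
  have h2 : ∀ e v, s e = v ∨ t e = v → h e = (p v).1 e := by
    rintro e v (rfl | rfl)
    · rfl
    · exact h1 e
  have hmem : h ∈ LinearMap.ker (stressMap s t X r) := by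
    rw [mem_ker_iff]
    refine ⟨fun i u => ?_, fun v j => ?_⟩
    · have h3 := (mem_ker_iff.1 (p u).2).1 i u
      rw [← h3]
      unfold bd
      refine Finset.sum_congr rfl fun e _ => ?_
      by_cases he : s e = u ∨ t e = u
      · rw [h2 e u he]
      · push Not at he
        have h4 : ivec s t e u = 0 := by
          simp only [ivec, Pi.sub_apply]
          rw [Pi.single_eq_of_ne (fun h => he.1 h.symm), Pi.single_eq_of_ne (fun h => he.2 h.symm), sub_zero]
        rw [h4, mul_zero, mul_zero]
    · have h3 := (mem_ker_iff.1 (p v).2).2 v j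
      rw [← h3]
      unfold star
      refine Finset.sum_congr rfl fun e _ => ?_
      split_ifs with he
      · rw [h2 e v he]
      · rfl
  have h3 : ∀ v, (p v).1 = h := by
    intro v
    have h4 : (p v).1 - h ∈ LinearMap.ker (stressMap s t X r) := Submodule.sub_mem _ (p v).2 hmem
    have h5 := stress_eq_zero hst hX h4 v fun e he => by
      rw [Pi.sub_apply, h2 e v he, sub_self]
    exact sub_eq_zero.1 h5
  exact Subtype.ext ((h3 v).trans (h3 w).symm)

/-- The second coefficients. -/
theorem exists_beta (hst : ∀ e, s e ≠ t e) (hX : Gen s t X) (r : V)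
    (φ : LinearMap.ker (stressMap s t X r) →ₗ[ℚ] ℚ) :
    ∃ β : E → ℚ, ∀ p : V → LinearMap.ker (stressMap s t X r),
      ∑ e, β e * ((p (s e)).1 e - (p (t e)).1 e) = φ (∑ v, (p v - p r)) := by
  classical
  let Φ : (V → LinearMap.ker (stressMap s t X r)) →ₗ[ℚ] ℚ :=
    { toFun := fun p => φ (∑ v, (p v - p r))
      map_add' := fun p q => by
        rw [← map_add]
        congr 1
        rw [← Finset.sum_add_distrib]
        refine Finset.sum_congr rfl fun v _ => ?_
        simp only [Pi.add_apply]
        abel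
      map_smul' := fun a p => by
        rw [RingHom.id_apply, ← map_smul]
        congr 1
        rw [Finset.smul_sum]
        refine Finset.sum_congr rfl fun v _ => ?_
        simp only [Pi.smul_apply]
        rw [smul_sub] }
  have h1 : Φ ∈ LinearMap.range (diffMap s t X r).dualMap := by
    rw [LinearMap.range_dualMap_eq_dualAnnihilator_ker, Submodule.mem_dualAnnihilator]
    intro p hp
    rw [LinearMap.mem_ker] at hp
    change φ (∑ v, (p v - p r)) = 0
    rw [Finset.sum_eq_zero fun v _ => by rw [ker_diffMap hst hX hp v r, sub_self], map_zero]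
  obtain ⟨y, hy⟩ := h1
  refine ⟨fun e => y (Pi.single e 1), fun p => ?_⟩
  have h2 : Φ p = y (diffMap s t X r p) := by
    rw [← hy]; rfl
  change _ = Φ p
  rw [h2]
  have h3 : diffMap s t X r p = ∑ e, (diffMap s t X r p e) • (Pi.single e 1 : E → ℚ) := by
    funext e
    rw [Finset.sum_apply]
    simp [Pi.single_apply]
  rw [h3, map_sum]
  refine Finset.sum_congr rfl fun e _ => ?_
  rw [map_smul, smul_eq_mul, mul_comm]
  rfl

/-- **Averages.** -/
theorem exists_avg (hst : ∀ e, s e ≠ t e) (hdeg : ∀ v, (univ.filter fun e => s e = v).card +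
    (univ.filter fun e => t e = v).card = 2 * (ℓ + c v)) (hX : Gen s t X) (r : V) :
    ∃ β : Fin ℓ → E → ℚ, ∀ a b : V → Fin ℓ → ℚ,
      (∀ e, ∑ i, X (Sum.inl i) e * (a (s e) i - a (t e) i) +
        ∑ i, β i e * (b (s e) i - b (t e) i) = 0) →
      ∀ i, ∑ v, (b v i - b r i) = 0 := by
  classical
  let B := finBasis ℚ (LinearMap.ker (stressMap s t X r))
  have hle := finrank_stress (X := X) hdeg r
  have h1 := fun i : Fin ℓ => exists_beta hst hX r (B.coord (Fin.castLE hle i))
  choose β hβ using h1
  refine ⟨β, fun a b hab i => ?_⟩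
  let g := B (Fin.castLE hle i)
  have h2 : ∑ e, g.1 e * (∑ i, X (Sum.inl i) e * (a (s e) i - a (t e) i) +
      ∑ i, β i e * (b (s e) i - b (t e) i)) = 0 :=
    Finset.sum_eq_zero fun e _ => by rw [hab e, mul_zero]
  simp only [mul_add] at h2
  rw [Finset.sum_add_distrib, pairing] at h2
  have h3 : ∑ i, ∑ u, a u i * bd s t X g.1 i u = 0 := by
    refine Finset.sum_eq_zero fun i _ => Finset.sum_eq_zero fun u _ => ?_
    rw [(mem_ker_iff.1 g.2).1 i u, mul_zero]
  rw [h3, zero_add] at h2
  simp only [Finset.mul_sum] at h2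
  rw [Finset.sum_comm] at h2
  have h4 : ∀ i', ∑ e, g.1 e * (β i' e * (b (s e) i' - b (t e) i')) =
      if i' = i then ∑ v, (b v i - b r i) else 0 := by
    intro i'
    have h5 := hβ i' fun v => b v i' • g
    have h6 : ∑ e, g.1 e * (β i' e * (b (s e) i' - b (t e) i')) =
        ∑ e, β i' e * ((b (s e) i' • g).1 e - (b (t e) i' • g).1 e) := by
      refine Finset.sum_congr rfl fun e _ => ?_
      simp only [Submodule.coe_smul, Pi.smul_apply, smul_eq_mul]
      ring
    rw [h6, h5]
    have h7 : ∑ v, (b v i' • g - b r i' • g) = (∑ v, (b v i' - b r i')) • g := by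
      rw [Finset.sum_smul]
      refine Finset.sum_congr rfl fun v _ => ?_
      rw [sub_smul]
    rw [h7, map_smul, smul_eq_mul]
    simp only [g]
    rw [Basis.coord_apply, Basis.repr_self, Finsupp.single_apply]
    by_cases hi : i' = i
    · subst hi
      rw [if_pos rfl, if_pos rfl, mul_one]
    · rw [if_neg hi, if_neg, mul_zero]
      intro h8
      apply hi
      have h9 := congrArg Fin.val h8
      simp only [Fin.val_castLE] at h9
      exact Fin.ext h9.symm
  simp only [h4] at h2
  rw [Finset.sum_ite_eq', if_pos (mem_univ i)] at h2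
  exact h2

end Stress

end Pool.Agent.V11247.EqG
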